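import Mathlib

/-!
# Bounds for resultants with respect to nonarchimedean absolute values
-/

set_option autoImplicit false

namespace Pool.Agent.Helper11.SP

open Polynomial

/-- A sum is bounded by a common bound of its terms. -/
theorem abv_sum_le {R ι : Type*} [CommRing R] (v : AbsoluteValue R ℝ)
    (hna : IsNonarchimedean v) (s : Finset ι) (a : ι → R) (M : ℝ) (hM : 0 ≤ M)
    (h : ∀ i ∈ s, v (a i) ≤ M) : v (∑ i ∈ s, a i) ≤ M := by
  classical
  induction s using Finset.induction_on with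
  | empty => simpa using hM
  | insert i s hi ih =>
    rw [Finset.sum_insert hi]
    refine (hna _ _).trans (max_le (h i (Finset.mem_insert_self i s)) (ih fun j hj => ?_))
    exact h j (Finset.mem_insert_of_mem hj)

/-- The Gauss norm as an absolute value. -/
noncomputable def gv {R : Type*} [CommRing R] (v : AbsoluteValue R ℝ)
    (hna : IsNonarchimedean v) : AbsoluteValue R[X] ℝ where
  toFun := gaussNorm v 1
  map_mul' p q := gaussNorm_mul hna one_pos p q
  nonneg' p := p.gaussNorm_nonneg v zero_le_one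
  eq_zero' p := gaussNorm_eq_zero_iff v p (fun _ hx => (AbsoluteValue.eq_zero v).mp hx) one_pos
  add_le' p q := by
    have h := isNonarchimedean_gaussNorm v hna zero_le_one p q
    have h1 := p.gaussNorm_nonneg v zero_le_one
    have h2 := q.gaussNorm_nonneg v zero_le_one
    refine h.trans (max_le ?_ ?_) <;> linarith

section

variable {R : Type*} [CommRing R] (v : AbsoluteValue R ℝ) (hna : IsNonarchimedean v)

theorem gv_na : IsNonarchimedean (gv v hna) := isNonarchimedean_gaussNorm v hna zero_le_one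

theorem coeff_le_gv (p : R[X]) (k : ℕ) : v (p.coeff k) ≤ gv v hna p := by
  have h := le_gaussNorm v p zero_le_one k
  rwa [one_pow, mul_one] at h

theorem gv_le (p : R[X]) (M : ℝ) (h : ∀ k, v (p.coeff k) ≤ M) : gv v hna p ≤ M := by
  obtain ⟨i, hi⟩ := exists_eq_gaussNorm v 1 p
  show gaussNorm v 1 p ≤ M
  rw [hi, one_pow, mul_one]
  exact h i

theorem gv_C (r : R) : gv v hna (C r) = v r := gaussNorm_C v 1 r

end

/-- The value of a polynomial. -/
theorem abv_eval₂_le {R S : Type*} [CommRing R] [CommRing S] [Nontrivial S]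
    (w : AbsoluteValue S ℝ)
    (hw : IsNonarchimedean w) (φ : R →+* S) (q : S) (p : R[X]) (M : ℝ) (hM0 : 0 ≤ M)
    (hM : ∀ k, w (φ (p.coeff k)) ≤ M) (n : ℕ) (hn : p.natDegree ≤ n) :
    w (p.eval₂ φ q) ≤ M * max 1 (w q) ^ n := by
  have h1 : (1 : ℝ) ≤ max 1 (w q) := le_max_left _ _
  rw [Polynomial.eval₂_eq_sum_range]
  refine abv_sum_le w hw _ _ _ (by positivity) fun i hi => ?_
  rw [w.map_mul, w.map_pow]
  have h2 : w q ^ i ≤ max 1 (w q) ^ n :=
    (pow_le_pow_left₀ (w.nonneg _) (le_max_right _ _) i).trans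
      (pow_le_pow_right₀ h1 (by have := Finset.mem_range.1 hi; omega))
  exact mul_le_mul (hM i) h2 (by positivity) hM0

/-- Nonarchimedean Hadamard bound. -/
theorem abv_det_le {R ι : Type*} [CommRing R] [Nontrivial R] [Fintype ι] [DecidableEq ι]
    (w : AbsoluteValue R ℝ) (hw : IsNonarchimedean w) (A : Matrix ι ι R) (c : ι → ℝ)
    (hc : ∀ j, 0 ≤ c j) (h : ∀ i j, w (A i j) ≤ c j) : w A.det ≤ ∏ j, c j := by
  rw [Matrix.det_apply]
  refine abv_sum_le w hw _ _ _ (Finset.prod_nonneg fun j _ => hc j) fun σ _ => ?_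
  have h1 : w (Equiv.Perm.sign σ • ∏ i, A (σ i) i) = w (∏ i, A (σ i) i) := by
    rcases Int.units_eq_one_or (Equiv.Perm.sign σ) with h2 | h2
    · rw [h2, one_smul]
    · rw [h2, Units.neg_smul, one_smul]
      exact w.map_neg _
  rw [h1, map_prod]
  exact Finset.prod_le_prod (fun i _ => w.nonneg _) fun i _ => h _ _

theorem abv_resultant_le {R : Type*} [CommRing R] [Nontrivial R]
    (w : AbsoluteValue R ℝ) (hw : IsNonarchimedean w) (P Q : R[X]) (m n : ℕ) (F G : ℝ)
    (hF0 : 0 ≤ F) (hG0 : 0 ≤ G) (hF : ∀ k, w (P.coeff k) ≤ F) (hG : ∀ k, w (Q.coeff k) ≤ G) :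
    w (resultant P Q m n) ≤ F ^ n * G ^ m := by
  have key := abv_det_le w hw (sylvester P Q m n)
    (fun j => j.addCases (fun _ => G) (fun _ => F)) (fun j => ?_) (fun i j => ?_)
  · refine key.trans (le_of_eq ?_)
    rw [Fin.prod_univ_add]
    simp [mul_comm]
  · refine Fin.addCases (fun j => ?_) (fun j => ?_) j
    · simpa using hG0
    · simpa using hF0
  · refine Fin.addCases (fun j => ?_) (fun j => ?_) j
    · simp only [sylvester, Matrix.of_apply, Fin.addCases_left]
      split_ifs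
      · exact hG _
      · rw [map_zero]; exact hG0
    · simp only [sylvester, Matrix.of_apply, Fin.addCases_right]
      split_ifs
      · exact hF _
      · rw [map_zero]; exact hF0

/-- A root of a polynomial which is large at one place. -/
theorem root_le {A L I : Type*} [CommRing A] [IsDomain A] [NormedField L] [IsUltrametricDist L]
    (σ : I → A →+* L) (N : ℕ)
    (hliou : ∀ u : A, u ≠ 0 → ∀ i, ∀ M : ℝ, 1 ≤ M → (∀ j, ‖σ j u‖ ≤ M) →
      1 ≤ ‖σ i u‖ * M ^ N)
    (ρ : A[X]) (h0 : ρ ≠ 0) (x : A) (hx : ρ.eval x = 0) (M : ℝ) (hM : 1 ≤ M)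
    (hb : ∀ i k, ‖σ i (ρ.coeff k)‖ ≤ M) (i : I) : ‖σ i x‖ ≤ M ^ (N + 1) := by
  by_cases hx1 : ‖σ i x‖ ≤ 1
  · exact hx1.trans (one_le_pow₀ hM)
  push Not at hx1
  obtain ⟨t, ht⟩ : ∃ t, t = ρ.natDegree := ⟨_, rfl⟩
  have hlead : ρ.coeff t ≠ 0 := by
    rw [ht]
    exact leadingCoeff_ne_zero.2 h0
  have ht0 : t ≠ 0 := by
    intro h
    rw [h] at ht
    rw [Polynomial.eq_C_of_natDegree_eq_zero ht.symm, eval_C] at hx
    rw [h] at hlead
    exact hlead hx
  have h1 : σ i (ρ.coeff t) * σ i x ^ t = -∑ k ∈ Finset.range t, σ i (ρ.coeff k) * σ i x ^ k := by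
    have h2 := congrArg (σ i) hx
    rw [Polynomial.eval_eq_sum_range, ← ht, Finset.sum_range_succ, map_add, map_sum, map_zero] at h2
    simp only [map_mul, map_pow] at h2
    rw [add_comm] at h2
    exact eq_neg_of_add_eq_zero_left h2
  have h3 : ‖∑ k ∈ Finset.range t, σ i (ρ.coeff k) * σ i x ^ k‖ ≤ M * ‖σ i x‖ ^ (t - 1) := by
    refine IsUltrametricDist.norm_sum_le_of_forall_le_of_nonneg (by positivity) fun k hk => ?_
    rw [norm_mul, norm_pow]
    refine mul_le_mul (hb i k) ?_ (by positivity) (by linarith)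
    exact pow_le_pow_right₀ hx1.le (by have := Finset.mem_range.1 hk; omega)
  have h4 : ‖σ i (ρ.coeff t)‖ * ‖σ i x‖ ^ t ≤ M * ‖σ i x‖ ^ (t - 1) := by
    have h5 := congrArg norm h1
    rw [norm_mul, norm_pow, norm_neg] at h5
    rw [h5]
    exact h3
  have h6 : ‖σ i (ρ.coeff t)‖ * ‖σ i x‖ ≤ M := by
    have h7 : ‖σ i x‖ ^ t = ‖σ i x‖ * ‖σ i x‖ ^ (t - 1) := by
      rw [← pow_succ', Nat.sub_add_cancel (Nat.pos_of_ne_zero ht0)]
    rw [h7, ← mul_assoc] at h4
    exact le_of_mul_le_mul_right h4 (by positivity)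
  have h8 := hliou _ hlead i M hM (fun j => hb j t)
  calc ‖σ i x‖ = ‖σ i x‖ * 1 := (mul_one _).symm
    _ ≤ ‖σ i x‖ * (‖σ i (ρ.coeff t)‖ * M ^ N) := mul_le_mul_of_nonneg_left h8 (norm_nonneg _)
    _ = (‖σ i (ρ.coeff t)‖ * ‖σ i x‖) * M ^ N := by ring
    _ ≤ M * M ^ N := mul_le_mul_of_nonneg_right h6 (by positivity)
    _ = M ^ (N + 1) := by rw [pow_succ']

end Pool.Agent.Helper11.SP
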