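import Pool.Agent.Helper11.SP.Gap
import Pool.Agent.Helper79.DM.H2
import Pool.Agent.Helper78.DM.E
import Pool.Agent.Helper55.DM.A

/-!
# The dichotomy for an irreducible curve
-/

set_option autoImplicit false

namespace Pool.Agent.Helper11.SP

open Polynomial Pool.Agent.Helper79.DM

/-- A set of natural numbers which is closed under addition of a constant. -/
theorem ep_of_add {S : Set ℕ} (j : ℕ) (hj : 0 < j) (h : ∀ n ∈ S, n + j ∈ S) : EP S := by
  have hmul : ∀ k n, n ∈ S → n + j * k ∈ S := by
    intro k
    induction k with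
    | zero => intro n hn; simpa using hn
    | succ k ih =>
      intro n hn
      have h1 := h _ (ih n hn)
      have h2 : n + j * (k + 1) = n + j * k + j := by ring
      rw [h2]
      exact h1
  have hfin : {n | n + j ∈ S ∧ n ∉ S}.Finite := by
    refine Set.Finite.of_injOn (f := fun n => n % j) (t := Set.Iio j) ?_ ?_ (Set.finite_Iio j)
    · intro n _
      exact Nat.mod_lt _ hj
    · intro m hm n hn hmn
      by_contra hne
      wlog hlt : m < n generalizing m n
      · exact this hn hm hmn.symm (Ne.symm hne) (by omega)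
      apply hn.2
      have h1 : (n - m) % j = 0 := Nat.sub_mod_eq_zero_of_mod_eq hmn.symm
      obtain ⟨k, hk⟩ := Nat.dvd_of_mod_eq_zero h1
      have hk0 : k ≠ 0 := by
        rintro rfl
        omega
      obtain ⟨l, rfl⟩ := Nat.exists_eq_succ_of_ne_zero hk0
      have h2 : n = m + j + j * l := by
        have : n = m + j * (l + 1) := by rw [← Nat.succ_eq_add_one, ← hk]; omega
        rw [this]; ring
      rw [h2]
      exact hmul l _ hm.1
  obtain ⟨N, hN⟩ := hfin.bddAbove
  refine ⟨N + 1, j, hj, fun n hn => ⟨h n, fun h1 => ?_⟩⟩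
  by_contra h2
  have := hN ⟨h1, h2⟩
  omega

/-- Lifting a polynomial to a subring which contains its coefficients. -/
theorem lift_poly {K : Type*} [Field K] (A : Subring K) (f : K[X]) (h : (↑f.coeffs : Set K) ⊆ A) :
    ∃ f' : A[X], f'.map A.subtype = f := by
  refine (Polynomial.mem_lifts f).1 ((Polynomial.lifts_iff_coeff_lifts f).2 fun n => ?_)
  by_cases hc : f.coeff n = 0
  · exact ⟨0, by rw [map_zero, hc]⟩
  · exact ⟨⟨f.coeff n, h (Polynomial.coeff_mem_coeffs hc)⟩, rfl⟩

/-- The dichotomy for an irreducible curve, in terms of `K[X][Y]`. -/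
theorem dich (p : ℕ) [Fact p.Prime] (K : Type) [Field K] [CharP K p] (f g : K[X])
    (hfg : f.natDegree = g.natDegree) (hf : 1 ≤ f.natDegree) (x y : K)
    (hx : ¬ (Set.range (orb f x)).Finite) (P : K[X][X]) (hP : Irreducible P)
    (hd : 0 < P.natDegree) :
    EP {n | ev (orb f x n) (orb g y n) P = 0} ∨
    ∃ c : ℕ, 1 ≤ c ∧ ∀ n j : ℕ, 0 < j → ev (orb f x n) (orb g y n) P = 0 →
      ev (orb f x (n + j)) (orb g y (n + j)) P = 0 →
      n ≤ c * (j + 1) ∧ (2 ≤ f.natDegree → n ≤ j + c) := by
  classical
  by_cases hper : ∃ j, 0 < j ∧ P ∣ tw f g P j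
  · obtain ⟨j, hj, Q, hQ⟩ := hper
    left
    refine ep_of_add j hj fun n hn => ?_
    have hn' : ev (orb f x n) (orb g y n) P = 0 := hn
    show ev (orb f x (n + j)) (orb g y (n + j)) P = 0
    have h1 : ev (orb f x n) (orb g y n) (tw f g P j) = 0 := by
      rw [hQ, ev_mul, hn', zero_mul]
    rw [ev_tw] at h1
    rw [add_comm n j, orb_add, orb_add]
    exact h1
  · right
    push Not at hper
    have hfin : ((↑f.coeffs ∪ ↑g.coeffs ∪ (⋃ q ∈ P.coeffs, (↑q.coeffs : Set K)) ∪ {x, y} : Set K)).Finite :=
      (((Finset.finite_toSet _).union (Finset.finite_toSet _)).union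
        (Set.Finite.biUnion (Finset.finite_toSet _) fun q _ => Finset.finite_toSet _)).union
        (Set.toFinite _)
    obtain ⟨L, _, _, _, _, _, A, I, _, σ, N, hBA, hinj, hbd, hliou⟩ := exists_places p K _ hfin
    obtain ⟨f', hf'⟩ := lift_poly A f (fun z hz => hBA (by simp [hz]))
    obtain ⟨g', hg'⟩ := lift_poly A g (fun z hz => hBA (by simp [hz]))
    obtain ⟨P', hP'⟩ : ∃ P' : A[X][X], P'.map (mapRingHom A.subtype) = P := by
      refine (Polynomial.mem_lifts P).1 ((Polynomial.lifts_iff_coeff_lifts P).2 fun n => ?_)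
      by_cases hc : P.coeff n = 0
      · exact ⟨0, by rw [map_zero, hc]⟩
      · obtain ⟨q, hq⟩ := lift_poly A (P.coeff n) (fun z hz => hBA (by
          refine Or.inl (Or.inr ?_)
          exact Set.mem_biUnion (Polynomial.coeff_mem_coeffs hc) hz))
        exact ⟨q, hq⟩
    have hinjA : Function.Injective A.subtype := Subtype.val_injective
    have hinjA' : Function.Injective (mapRingHom A.subtype) := Polynomial.map_injective _ hinjA
    have hxA : x ∈ A := hBA (by simp)
    have hyA : y ∈ A := hBA (by simp)
    have ex : ∀ n, (((fun z : A => f'.eval z)^[n] ⟨x, hxA⟩ : A) : K) = orb f x n :=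
      fun n => coe_iterate A f' f hf' ⟨x, hxA⟩ n
    have ey : ∀ n, (((fun z : A => g'.eval z)^[n] ⟨y, hyA⟩ : A) : K) = orb g y n :=
      fun n => coe_iterate A g' g hg' ⟨y, hyA⟩ n
    have rx : ¬ (Set.range fun n : ℕ => (fun z : A => f'.eval z)^[n] ⟨x, hxA⟩).Finite := by
      intro hfi
      apply hx
      refine (hfi.image (fun a : A => (a : K))).subset ?_
      rintro _ ⟨n, rfl⟩
      exact ⟨_, ⟨n, rfl⟩, ex n⟩
    have hdf : f'.natDegree = f.natDegree := by
      rw [← hf', Polynomial.natDegree_map_eq_of_injective hinjA]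
    have hdg : g'.natDegree = g.natDegree := by
      rw [← hg', Polynomial.natDegree_map_eq_of_injective hinjA]
    have hdP : P'.natDegree = P.natDegree := by
      rw [← hP', Polynomial.natDegree_map_eq_of_injective hinjA']
    obtain ⟨c, hc, key⟩ := gap_core σ N hinj hbd hliou f' g' (by rw [hdf, hdg, hfg])
      (by rw [hdf]; exact hf)
      (fun n : ℕ => (fun z : A => f'.eval z)^[n] ⟨x, hxA⟩)
      (fun n : ℕ => (fun z : A => g'.eval z)^[n] ⟨y, hyA⟩)
      (fun n => Function.iterate_succ_apply' _ _ _) (fun n => Function.iterate_succ_apply' _ _ _)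
      (iter_injective _ _ rx) P' (by rw [hdP]; exact hd)
    rw [hdf] at key
    have hev : ∀ a b : A, ((ev a b P' : A) : K) = ev (a : K) (b : K) P := by
      intro a b
      unfold ev
      rw [← hP', Polynomial.map_map]
      have h1 : (evalRingHom (a : K)).comp (mapRingHom A.subtype) =
          A.subtype.comp (evalRingHom a) := by
        refine RingHom.ext fun q => ?_
        show (q.map A.subtype).eval (a : K) = ((q.eval a : A) : K)
        rw [Polynomial.eval_map]
        exact Polynomial.eval₂_at_apply A.subtype a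
      have h2 : ((P'.map (evalRingHom a)).map A.subtype).eval (A.subtype b) =
          A.subtype ((P'.map (evalRingHom a)).eval b) :=
        Polynomial.eval_map_apply A.subtype b
      rw [h1, ← Polynomial.map_map]
      exact h2.symm
    refine ⟨c, hc, fun n j hj h1 h2 => key n j ?_ ?_ ?_⟩
    · intro h0
      apply resultant_ne P (tw f g P j) hP hd (hper j hj)
      have h3 := resultant_map_map P' (tw f' g' P' j) P'.natDegree (tw f' g' P' j).natDegree
        (mapRingHom A.subtype)
      rw [h0, map_zero] at h3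
      have h4 : (tw f g P j) = (tw f' g' P' j).map (mapRingHom A.subtype) := by
        rw [tw_map, hf', hg', hP']
      rw [h4]
      conv_lhs => rw [← hP']
      rw [natDegree_map_eq_of_injective hinjA', natDegree_map_eq_of_injective hinjA']
      exact h3
    · apply hinjA
      rw [map_zero]
      show ((ev _ _ P' : A) : K) = 0
      rw [hev, ex, ey]
      exact h1
    · apply hinjA
      rw [map_zero]
      show ((ev _ _ P' : A) : K) = 0
      rw [hev, ex, ey]
      exact h2

/-- Polynomials in two variables as iterated polynomials. -/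
noncomputable def toP (K : Type*) [Field K] : MvPolynomial (Fin 2) K ≃+* K[X][X] :=
  RingEquiv.ofRingHom (MvPolynomial.eval₂Hom ((C : K[X] →+* K[X][X]).comp C) ![C X, X])
    (eval₂RingHom (eval₂RingHom MvPolynomial.C (MvPolynomial.X 0)) (MvPolynomial.X 1))
    (by
      refine Polynomial.ringHom_ext' (Polynomial.ringHom_ext' ?_ ?_) ?_
      · refine RingHom.ext fun a => ?_
        simp
      · simp
      · simp)
    (by
      refine MvPolynomial.ringHom_ext (fun a => ?_) (fun i => ?_)
      · simp
      · fin_cases i <;> simp)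

theorem ev_toP {K : Type*} [Field K] (x y : K) (h : MvPolynomial (Fin 2) K) :
    ev x y (toP K h) = MvPolynomial.eval ![x, y] h := by
  have h1 : ((evalRingHom y).comp (mapRingHom (evalRingHom x))).comp (toP K).toRingHom =
      MvPolynomial.eval ![x, y] := by
    refine MvPolynomial.ringHom_ext (fun a => ?_) (fun i => ?_)
    · simp [toP]
    · fin_cases i <;> simp [toP]
  exact congrArg (fun φ : MvPolynomial (Fin 2) K →+* K => φ h) h1

end Pool.Agent.Helper11.SP
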