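import Pool.Agent.Helper11.SP.Dich

/-!
# Assembly: curves with several components
-/

set_option autoImplicit false

namespace Pool.Agent.Helper11.SP

open Polynomial Pool.Agent.Helper79.DM

/-- The gap property. -/
def Gp (ε c : ℝ) (E : Set ℕ) : Prop := ∀ m ∈ E, ∀ n ∈ E, m < n → (1 + ε) * m - c ≤ n

theorem Gp.mono {ε c ε' c' : ℝ} {E : Set ℕ} (h : Gp ε c E) (he : ε' ≤ ε) (hc : c ≤ c') :
    Gp ε' c' E := by
  intro m hm n hn hmn
  have h1 := h m hm n hn hmn
  have h2 : (0 : ℝ) ≤ m := Nat.cast_nonneg m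
  nlinarith

/-- An irreducible curve. -/
theorem irr (p : ℕ) [Fact p.Prime] (K : Type) [Field K] [CharP K p] (f g : K[X]) (x y : K)
    (h : MvPolynomial (Fin 2) K) (hh : Irreducible h) :
    EP (ret f g x y h) ∨ ∃ ε c : ℝ, 0 < ε ∧ ε ≤ 1 ∧ 0 ≤ c ∧
      (f.natDegree ≠ 1 ∨ g.natDegree ≠ 1 → ε = 1) ∧ Gp ε c (ret f g x y h) := by
  classical
  by_cases hx : (Set.range (orb f x)).Finite
  · exact Or.inl (ret_ep_of_finite f g x y h hx)
  by_cases hfg : f.natDegree = g.natDegree
  swap
  · exact Or.inl (deg_ne_ep p K f g hfg x y h hh.ne_zero)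
  have hf : 1 ≤ f.natDegree := by
    by_contra hc
    apply hx
    have h0 : f.natDegree = 0 := by omega
    have h1 := Polynomial.eq_C_of_natDegree_eq_zero h0
    refine (Set.toFinite ({x, f.coeff 0} : Set K)).subset ?_
    rintro _ ⟨n, rfl⟩
    rcases n with _ | n
    · left; rfl
    · right
      rw [orb_succ, h1, eval_C]
      simp
  have hP : Irreducible (toP K h) := (MulEquiv.irreducible_iff (toP K)).2 hh
  have hR : ret f g x y h = {n | ev (orb f x n) (orb g y n) (toP K h) = 0} := by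
    ext n
    show MvPolynomial.eval ![orb f x n, orb g y n] h = 0 ↔ ev (orb f x n) (orb g y n) (toP K h) = 0
    rw [ev_toP]
  rw [hR]
  by_cases hd : 0 < (toP K h).natDegree
  · rcases dich p K f g hfg hf x y hx (toP K h) hP hd with h1 | ⟨c, hc, h1⟩
    · exact Or.inl h1
    · right
      have hc1 : (1 : ℝ) ≤ c := by exact_mod_cast hc
      have hc0 : (0 : ℝ) < c := by linarith
      by_cases h2 : 2 ≤ f.natDegree
      · refine ⟨1, c, one_pos, le_rfl, hc0.le, fun _ => rfl, fun m hm n hn hmn => ?_⟩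
        obtain ⟨j, rfl⟩ : ∃ j, n = m + j := ⟨n - m, by omega⟩
        have h3 := (h1 m j (by omega) hm hn).2 h2
        have h4 : (m : ℝ) ≤ j + c := by exact_mod_cast h3
        push_cast
        linarith
      · refine ⟨1 / c, 1, by positivity, ?_, zero_le_one, fun h3 => ?_, fun m hm n hn hmn => ?_⟩
        · rw [div_le_one hc0]; exact hc1
        · exfalso
          omega
        · obtain ⟨j, rfl⟩ : ∃ j, n = m + j := ⟨n - m, by omega⟩
          have h3 := (h1 m j (by omega) hm hn).1
          have h4 : (m : ℝ) ≤ c * (j + 1) := by exact_mod_cast h3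
          have h5 : (m : ℝ) / c ≤ j + 1 := by
            rw [div_le_iff₀ hc0]
            linarith
          push_cast
          have h6 : (1 + 1 / (c : ℝ)) * m - 1 = m + (m / c) - 1 := by ring
          rw [h6]
          linarith
  · left
    refine EP.of_finite ?_
    obtain ⟨q, hq⟩ : ∃ q : K[X], toP K h = C q :=
      ⟨_, Polynomial.eq_C_of_natDegree_eq_zero (by omega)⟩
    rw [hq] at hP ⊢
    have hq0 : q ≠ 0 := by
      rintro rfl
      rw [map_zero] at hP
      exact hP.ne_zero rfl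
    have h1 : {n | ev (orb f x n) (orb g y n) (C q) = 0} ⊆
        (orb f x) ⁻¹' (q.roots.toFinset : Set K) := by
      intro n hn
      have h2 : ev (orb f x n) (orb g y n) (C q) = 0 := hn
      rw [ev_C] at h2
      simp only [Set.mem_preimage, Finset.mem_coe, Multiset.mem_toFinset]
      exact (mem_roots hq0).2 h2
    exact ((Finset.finite_toSet _).preimage (orb_injective f x hx).injOn).subset h1

/-- General curves. -/
theorem gen (p : ℕ) [Fact p.Prime] (K : Type) [Field K] [CharP K p] (f g : K[X]) (x y : K)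
    (h : MvPolynomial (Fin 2) K) (h0 : h ≠ 0) :
    ∃ (ε c : ℝ) (U : Set ℕ) (r : ℕ) (E : Fin r → Set ℕ), 0 < ε ∧ ε ≤ 1 ∧ 0 ≤ c ∧
      (f.natDegree ≠ 1 ∨ g.natDegree ≠ 1 → ε = 1) ∧ EP U ∧ (∀ i, Gp ε c (E i)) ∧
      ret f g x y h = U ∪ ⋃ i, E i := by
  revert h0
  refine WfDvdMonoid.induction_on_irreducible h ?_ ?_ ?_
  · intro h0
    exact absurd rfl h0
  · intro u hu _
    refine ⟨1, 0, ∅, 0, fun _ => ∅, one_pos, le_rfl, le_rfl, fun _ => rfl,
      EP.of_finite Set.finite_empty, fun i => i.elim0, ?_⟩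
    ext n
    constructor
    · intro hn
      have h2 : MvPolynomial.eval ![orb f x n, orb g y n] u = 0 := hn
      exact absurd h2 (hu.map (MvPolynomial.eval ![orb f x n, orb g y n])).ne_zero
    · rintro (h2 | h2)
      · exact absurd h2 (Set.notMem_empty n)
      · obtain ⟨i, -⟩ := Set.mem_iUnion.1 h2
        exact i.elim0
  · intro a i ha hi ih hne
    obtain ⟨ε, c, U, r, E, e1, e2, e3, e4, e5, e6, e7⟩ := ih ha
    have hun : ret f g x y (i * a) = ret f g x y i ∪ ret f g x y a := by
      ext n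
      show MvPolynomial.eval ![orb f x n, orb g y n] (i * a) = 0 ↔
        (MvPolynomial.eval ![orb f x n, orb g y n] i = 0 ∨
        MvPolynomial.eval ![orb f x n, orb g y n] a = 0)
      rw [map_mul, mul_eq_zero]
    rcases irr p K f g x y i hi with h1 | ⟨ε', c', d1, d2, d3, d4, d5⟩
    · refine ⟨ε, c, ret f g x y i ∪ U, r, E, e1, e2, e3, e4, EP.union h1 e5, e6, ?_⟩
      rw [hun, e7, Set.union_assoc]
    · refine ⟨min ε ε', max c c', U, r + 1, Fin.cons (ret f g x y i) E, lt_min e1 d1,
        (min_le_left _ _).trans e2, e3.trans (le_max_left _ _), fun hb => ?_, e5, fun k => ?_, ?_⟩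
      · rw [e4 hb, d4 hb, min_self]
      · refine Fin.cases ?_ (fun k => ?_) k
        · rw [Fin.cons_zero]
          exact d5.mono (min_le_right _ _) (le_max_right _ _)
        · rw [Fin.cons_succ]
          exact (e6 k).mono (min_le_left _ _) (le_max_left _ _)
      · rw [hun, e7]
        ext n
        simp only [Set.mem_union, Set.mem_iUnion]
        constructor
        · rintro (h2 | h2 | ⟨k, h2⟩)
          · exact Or.inr ⟨0, h2⟩
          · exact Or.inl h2
          · exact Or.inr ⟨k.succ, h2⟩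
        · rintro (h2 | ⟨k, h2⟩)
          · exact Or.inr (Or.inl h2)
          · revert h2
            refine Fin.cases ?_ (fun k => ?_) k
            · intro h2; exact Or.inl h2
            · intro h2; exact Or.inr (Or.inr ⟨k, h2⟩)

/-- A set with the gap property has few elements. -/
theorem Gp.count {ε c : ℝ} {E : Set ℕ} (h : Gp ε c E) (he : 0 < ε) (hc : 0 ≤ c) :
    ∃ A : ℝ, 0 ≤ A ∧ ∀ N : ℕ, 1 ≤ N → ((E ∩ Set.Iic N).ncard : ℝ) ≤ A * (1 + Real.log N) := by
  classical
  obtain ⟨T, hT⟩ := exists_nat_gt (2 * c / ε)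
  obtain ⟨lam, hlam⟩ : ∃ lam : ℝ, lam = 1 + ε / 2 := ⟨_, rfl⟩
  have hl1 : 1 < lam := by rw [hlam]; linarith
  have hlog : 0 < Real.log lam := Real.log_pos hl1
  have hT' : 2 * c < T * ε := by
    rwa [div_lt_iff₀ he] at hT
  refine ⟨T + 2 + 1 / Real.log lam, by positivity, fun N hN => ?_⟩
  have hN1 : (1 : ℝ) ≤ N := by exact_mod_cast hN
  have hlN : 0 ≤ Real.log N := Real.log_nonneg hN1
  -- the small elements and the large ones
  have hsub : E ∩ Set.Iic N ⊆ Set.Iic T ∪ (E ∩ Set.Ioc T N) := by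
    rintro n ⟨h1, h2⟩
    by_cases h3 : n ≤ T
    · exact Or.inl h3
    · exact Or.inr ⟨h1, not_le.1 h3, h2⟩
  have hinj : Set.InjOn (fun n : ℕ => ⌊Real.log n / Real.log lam⌋₊) (E ∩ Set.Ioc T N) := by
    intro m hm n hn hmn
    by_contra hne
    wlog hlt : m < n generalizing m n
    · exact this hn hm hmn.symm (Ne.symm hne) (by omega)
    have h1 := h m hm.1 n hn.1 hlt
    have hTm : (T : ℝ) < m := by exact_mod_cast hm.2.1
    have hT0 : (0 : ℝ) ≤ T := Nat.cast_nonneg T
    have hm0 : (0 : ℝ) < m := lt_of_le_of_lt hT0 hTm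
    have h2 : lam * m ≤ n := by
      rw [hlam]
      nlinarith
    have h3 : Real.log lam + Real.log m ≤ Real.log n := by
      rw [← Real.log_mul (by linarith) hm0.ne']
      exact Real.log_le_log (by positivity) h2
    have h4 : Real.log m / Real.log lam + 1 ≤ Real.log n / Real.log lam := by
      rw [div_add_one hlog.ne', div_le_div_iff_of_pos_right hlog]
      linarith
    have hm1 : (1 : ℝ) ≤ m := by
      have : 1 ≤ m := by
        have := hm.2.1
        omega
      exact_mod_cast this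
    have h5 : 0 ≤ Real.log m / Real.log lam := div_nonneg (Real.log_nonneg hm1) hlog.le
    have h6 : ⌊Real.log m / Real.log lam⌋₊ + 1 ≤ ⌊Real.log n / Real.log lam⌋₊ := by
      rw [← Nat.floor_add_one h5]
      exact Nat.floor_le_floor h4
    have h7 : ⌊Real.log m / Real.log lam⌋₊ = ⌊Real.log n / Real.log lam⌋₊ := hmn
    omega
  have hmaps : ∀ n ∈ E ∩ Set.Ioc T N, (fun n : ℕ => ⌊Real.log n / Real.log lam⌋₊) n ∈
      Set.Iic ⌊Real.log N / Real.log lam⌋₊ := by
    intro n hn
    show ⌊Real.log n / Real.log lam⌋₊ ≤ _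
    apply Nat.floor_le_floor
    rw [div_le_div_iff_of_pos_right hlog]
    have h1 : 0 < n := by
      have := hn.2.1
      omega
    exact Real.log_le_log (by exact_mod_cast h1) (by exact_mod_cast hn.2.2)
  have hc1 : (E ∩ Set.Ioc T N).ncard ≤ ⌊Real.log N / Real.log lam⌋₊ + 1 := by
    have := Set.ncard_le_ncard_of_injOn _ hmaps hinj (Set.finite_Iic _)
    refine this.trans (le_of_eq ?_)
    rw [Set.ncard_eq_toFinset_card' (Set.Iic _)]
    simp
  have hc2 : (E ∩ Set.Iic N).ncard ≤ (T + 1) + (⌊Real.log N / Real.log lam⌋₊ + 1) := by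
    have h1 := Set.ncard_le_ncard hsub ((Set.finite_Iic T).union
      ((Set.finite_Ioc T N).subset Set.inter_subset_right))
    refine h1.trans ((Set.ncard_union_le _ _).trans (Nat.add_le_add (le_of_eq ?_) hc1))
    rw [Set.ncard_eq_toFinset_card' (Set.Iic T)]
    simp
  have hc3 : ((E ∩ Set.Iic N).ncard : ℝ) ≤ (T + 1) + (Real.log N / Real.log lam + 1) := by
    have h1 : ((E ∩ Set.Iic N).ncard : ℝ) ≤
        (((T + 1) + (⌊Real.log N / Real.log lam⌋₊ + 1) : ℕ) : ℝ) := by exact_mod_cast hc2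
    refine h1.trans ?_
    push_cast
    have h2 := Nat.floor_le (div_nonneg hlN hlog.le)
    linarith
  refine hc3.trans ?_
  have h7 : (T + 2 + 1 / Real.log lam) * (1 + Real.log N) =
      (T + 1) + (Real.log N / Real.log lam + 1) +
        (1 / Real.log lam + ((T : ℝ) + 2) * Real.log N) := by
    field_simp
    ring
  rw [h7]
  have h8 : 0 ≤ 1 / Real.log lam + ((T : ℝ) + 2) * Real.log N := by positivity
  linarith

end Pool.Agent.Helper11.SP
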