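import Pool.Agent.Helper11.SP.Tw
import Pool.Agent.Helper71.DM.G

/-!
# The gap principle
-/

set_option autoImplicit false

namespace Pool.Agent.Helper11.SP

open Polynomial

theorem ee_lt (d : ℕ) (hd : 2 ≤ d) (k : ℕ) : ee d k + 1 ≤ d ^ k := by
  induction k with
  | zero => simp [ee]
  | succ k ih =>
    rw [ee_succ, pow_succ]
    nlinarith

theorem le_ee (d k : ℕ) : d ^ k ≤ ee d (k + 1) := by
  unfold ee
  rw [Finset.sum_range_succ]
  exact Nat.le_add_left _ _

theorem ee_one (k : ℕ) : ee 1 k = k := by simp [ee]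

/-- Lower growth of an unbounded orbit. -/
theorem growth {L : Type*} [NormedField L] [IsUltrametricDist L] (F : L[X]) (hd : 1 ≤ F.natDegree)
    (z : ℕ → L) (hz : ∀ n, z (n + 1) = F.eval (z n)) (hu : ∀ M : ℝ, ∃ n, M < ‖z n‖) :
    ∃ (μ : ℝ) (n₀ : ℕ), 1 < μ ∧ ∀ k, μ ^ ee F.natDegree k ≤ ‖z (n₀ + k)‖ := by
  by_cases h2 : 2 ≤ F.natDegree
  · obtain ⟨n₀, h⟩ := Pool.Agent.Helper79.DM.orbit_lower F h2 z hz hu
    refine ⟨2, n₀, one_lt_two, fun k => le_trans ?_ (h k)⟩
    exact pow_le_pow_right₀ one_le_two (by have := ee_lt F.natDegree h2 k; omega)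
  · have h1 : F.natDegree = 1 := by omega
    obtain ⟨a, b, hab⟩ : ∃ a b : L, ∀ t, F.eval t = a * t + b := by
      refine ⟨F.coeff 1, F.coeff 0, fun t => ?_⟩
      rw [Polynomial.eval_eq_sum_range, h1, Finset.sum_range_succ, Finset.sum_range_one]
      ring
    have hz' : ∀ n, z (n + 1) = a * z n + b := fun n => by rw [hz, hab]
    have ha : 1 < ‖a‖ := by
      by_contra hc
      push Not at hc
      obtain ⟨n, hn⟩ := hu (max ‖z 0‖ ‖b‖)
      have : ∀ n, ‖z n‖ ≤ max ‖z 0‖ ‖b‖ := by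
        intro n
        induction n with
        | zero => exact le_max_left _ _
        | succ n ih =>
          rw [hz']
          refine (IsUltrametricDist.norm_add_le_max _ _).trans (max_le ?_ (le_max_right _ _))
          rw [norm_mul]
          calc ‖a‖ * ‖z n‖ ≤ 1 * ‖z n‖ := mul_le_mul_of_nonneg_right hc (norm_nonneg _)
            _ ≤ _ := by rw [one_mul]; exact ih
      exact absurd (this n) (not_le.2 hn)
    obtain ⟨n₀, hn₀⟩ := hu (max 1 ‖b‖)
    have hn1 : 1 < ‖z n₀‖ := lt_of_le_of_lt (le_max_left _ _) hn₀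
    have hn2 : ‖b‖ < ‖z n₀‖ := lt_of_le_of_lt (le_max_right _ _) hn₀
    refine ⟨‖a‖, n₀, ha, fun k => ?_⟩
    rw [h1, ee_one]
    have key : ‖a‖ ^ k ≤ ‖z (n₀ + k)‖ ∧ ‖b‖ < ‖z (n₀ + k)‖ := by
      induction k with
      | zero => simpa using ⟨hn1.le, hn2⟩
      | succ k ih =>
        obtain ⟨i1, i2⟩ := ih
        have hpos : 0 < ‖z (n₀ + k)‖ := lt_of_le_of_lt (norm_nonneg _) i2
        have i3 : ‖z (n₀ + k)‖ < ‖a * z (n₀ + k)‖ := by
          rw [norm_mul]
          nlinarith
        have i4 : ‖z (n₀ + (k + 1))‖ = ‖a‖ * ‖z (n₀ + k)‖ := by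
          rw [← add_assoc, hz', IsUltrametricDist.norm_add_eq_max_of_norm_ne_norm
            (ne_of_gt (i2.trans i3)), max_eq_left (i2.trans i3).le, norm_mul]
        rw [i4]
        constructor
        · rw [pow_succ']
          exact mul_le_mul_of_nonneg_left i1 (norm_nonneg _)
        · rw [norm_mul] at i3
          exact i2.trans i3
    exact key.1

/-- Comparison of the exponents. -/
theorem exp_compare (d : ℕ) (hd : 1 ≤ d) (κ n₀ : ℕ) : ∃ c : ℕ, 1 ≤ c ∧ ∀ n j : ℕ,
    (∀ k, n = n₀ + k → ee d k ≤ κ * (d ^ j + ee d j + 1)) →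
    n ≤ c * (j + 1) ∧ (2 ≤ d → n ≤ j + c) := by
  by_cases h2 : 2 ≤ d
  · obtain ⟨t, ht⟩ : ∃ t, 2 * κ < 2 ^ t := ⟨_, Nat.lt_two_pow_self⟩
    have key : ∀ n j : ℕ, (∀ k, n = n₀ + k → ee d k ≤ κ * (d ^ j + ee d j + 1)) →
        n ≤ j + (n₀ + t + 1) := by
      intro n j h
      by_contra hc
      obtain ⟨k, hk⟩ : ∃ k, n = n₀ + (k + 1) := ⟨n - n₀ - 1, by omega⟩
      have h3 := h (k + 1) hk
      have h4 := ee_lt d h2 j
      have h5 : d ^ k ≤ κ * (d ^ j + d ^ j) :=
        (le_ee d k).trans (h3.trans (Nat.mul_le_mul_left _ (by omega)))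
      have h6 : d ^ k < d ^ (t + j) := by
        calc d ^ k ≤ 2 * κ * d ^ j := by linarith
          _ < 2 ^ t * d ^ j := Nat.mul_lt_mul_of_pos_right ht (Nat.pos_of_ne_zero (by positivity))
          _ ≤ d ^ t * d ^ j := Nat.mul_le_mul_right _ (Nat.pow_le_pow_left h2 t)
          _ = d ^ (t + j) := by rw [pow_add]
      have h7 : k < t + j := (Nat.pow_lt_pow_iff_right (by omega)).1 h6
      omega
    refine ⟨n₀ + t + 1, by omega, fun n j h => ?_⟩
    have h1 := key n j h
    refine ⟨?_, fun _ => h1⟩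
    nlinarith
  · have h1 : d = 1 := by omega
    subst h1
    refine ⟨n₀ + 2 * κ + 1, by omega, fun n j h => ⟨?_, fun h3 => absurd h3 h2⟩⟩
    by_cases hn : n ≤ n₀
    · nlinarith
    · obtain ⟨k, hk⟩ : ∃ k, n = n₀ + k := ⟨n - n₀, by omega⟩
      have h3 := h k hk
      rw [ee_one, ee_one, one_pow] at h3
      rw [hk]
      nlinarith

/-- The gap principle over a ring with enough places. -/
theorem gap_core {A L I : Type*} [CommRing A] [IsDomain A] [NormedField L]
    [IsUltrametricDist L] [Finite I] (σ : I → A →+* L) (N : ℕ)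
    (hinj : ∀ i, Function.Injective (σ i))
    (hfin : ∀ M : ℝ, {u : A | ∀ i, ‖σ i u‖ ≤ M}.Finite)
    (hliou : ∀ u : A, u ≠ 0 → ∀ i, ∀ M : ℝ, 1 ≤ M → (∀ j, ‖σ j u‖ ≤ M) →
      1 ≤ ‖σ i u‖ * M ^ N)
    (f g : A[X]) (hfg : f.natDegree = g.natDegree) (hf : 1 ≤ f.natDegree) (x y : ℕ → A)
    (hx : ∀ n, x (n + 1) = f.eval (x n)) (hy : ∀ n, y (n + 1) = g.eval (y n))
    (hxi : Function.Injective x) (P : A[X][X]) (hP : 0 < P.natDegree) :
    ∃ c : ℕ, 1 ≤ c ∧ ∀ n j : ℕ, resultant P (tw f g P j) ≠ 0 → ev (x n) (y n) P = 0 →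
      ev (x (n + j)) (y (n + j)) P = 0 →
      n ≤ c * (j + 1) ∧ (2 ≤ f.natDegree → n ≤ j + c) := by
  classical
  have := Fintype.ofFinite I
  -- a place where the first orbit is unbounded
  obtain ⟨i₀, hi₀⟩ : ∃ i, ∀ M : ℝ, ∃ n, M < ‖σ i (x n)‖ := by
    by_contra hc
    push Not at hc
    choose M hM using hc
    have h1 : Set.range x ⊆ {u : A | ∀ i, ‖σ i u‖ ≤ ∑ i, |M i|} := by
      rintro _ ⟨n, rfl⟩ i
      calc ‖σ i (x n)‖ ≤ M i := hM i n
        _ ≤ |M i| := le_abs_self _
        _ ≤ ∑ i, |M i| := Finset.single_le_sum (fun j _ => abs_nonneg (M j)) (Finset.mem_univ i)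
    exact (Set.infinite_range_of_injective hxi) ((hfin _).subset h1)
  have hfd : (f.map (σ i₀)).natDegree = f.natDegree :=
    Polynomial.natDegree_map_eq_of_injective (hinj i₀) f
  obtain ⟨μ, n₀, hμ, hn₀⟩ := growth (f.map (σ i₀)) (by omega) (fun n => σ i₀ (x n))
    (fun n => by rw [hx, Polynomial.eval_map, Polynomial.eval₂_at_apply]) hi₀
  rw [hfd] at hn₀
  obtain ⟨H, hH, hcom⟩ := common_le σ N hinj hliou f g f.natDegree le_rfl hfg.symm.le P hP
  obtain ⟨κ, hκ⟩ := pow_unbounded_of_one_lt H hμ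
  obtain ⟨c, hc, hcmp⟩ := exp_compare f.natDegree hf κ n₀
  refine ⟨c, hc, fun n j hr h1 h2 => hcmp n j fun k hk => ?_⟩
  have hxit : ∀ j n, x (n + j) = (fun z => f.eval z)^[j] (x n) := by
    intro j n
    induction j with
    | zero => rfl
    | succ j ih => rw [← add_assoc, hx, ih, Function.iterate_succ_apply']
  have hyit : ∀ j n, y (n + j) = (fun z => g.eval z)^[j] (y n) := by
    intro j n
    induction j with
    | zero => rfl
    | succ j ih => rw [← add_assoc, hy, ih, Function.iterate_succ_apply']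
  have h3 := hcom j hr (x n) (y n) h1 (by rw [ev_tw, ← hxit, ← hyit]; exact h2) i₀
  have h4 := hn₀ k
  rw [← hk] at h4
  have h5 : μ ^ ee f.natDegree k ≤ μ ^ (κ * (f.natDegree ^ j + ee f.natDegree j + 1)) := by
    refine h4.trans (h3.trans ?_)
    rw [pow_mul]
    exact pow_le_pow_left₀ (by linarith) hκ.le _
  exact (pow_le_pow_iff_right₀ hμ).1 h5

/-- An irreducible curve has a nonzero resultant with every curve which does not contain it. -/
theorem resultant_ne {K : Type*} [Field K] (P Q : K[X][X]) (hP : Irreducible P)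
    (hd : 0 < P.natDegree) (hn : ¬ P ∣ Q) : resultant P Q ≠ 0 := by
  have hprim : P.IsPrimitive := hP.isPrimitive hd.ne'
  have hinj : Function.Injective (algebraMap K[X] (FractionRing K[X])) :=
    IsFractionRing.injective _ _
  have hP' : Irreducible (P.map (algebraMap K[X] (FractionRing K[X]))) :=
    (hprim.irreducible_iff_irreducible_map_fraction_map (K := FractionRing K[X])).1 hP
  have hcop : IsCoprime (P.map (algebraMap K[X] (FractionRing K[X])))
      (Q.map (algebraMap K[X] (FractionRing K[X]))) := by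
    rw [hP'.coprime_iff_not_dvd]
    intro h
    exact hn (hprim.dvd_of_fraction_map_dvd_fraction_map (K := FractionRing K[X]) h)
  intro h0
  have h1 := resultant_map_map P Q P.natDegree Q.natDegree (algebraMap K[X] (FractionRing K[X]))
  rw [h0, map_zero] at h1
  have h2 : resultant (P.map (algebraMap K[X] (FractionRing K[X])))
      (Q.map (algebraMap K[X] (FractionRing K[X]))) = 0 := by
    rw [natDegree_map_eq_of_injective hinj, natDegree_map_eq_of_injective hinj]
    exact h1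
  rw [resultant_eq_zero_iff] at h2
  exact h2.2 hcop

theorem itc_map {A B : Type*} [CommRing A] [CommRing B] (φ : A →+* B) (f : A[X]) (j : ℕ) :
    (itc f j).map φ = itc (f.map φ) j := by
  induction j with
  | zero => exact Polynomial.map_X φ
  | succ j ih => rw [itc_succ, itc_succ, Polynomial.map_comp, ih]

theorem tw_map {A B : Type*} [CommRing A] [CommRing B] (φ : A →+* B) (f g : A[X]) (P : A[X][X])
    (j : ℕ) : (tw f g P j).map (mapRingHom φ) =
      tw (f.map φ) (g.map φ) (P.map (mapRingHom φ)) j := by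
  unfold tw
  rw [Polynomial.map_comp, Polynomial.map_map, Polynomial.map_map, Polynomial.map_map,
    ← itc_map, ← itc_map, Polynomial.map_map]
  congr 2
  · refine RingHom.ext fun q => ?_
    show (q.comp (itc f j)).map φ = (q.map φ).comp ((itc f j).map φ)
    exact Polynomial.map_comp _ _ _
  · refine RingHom.ext fun q => ?_
    show (C q).map φ = C (φ q)
    exact map_C φ

end Pool.Agent.Helper11.SP
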