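import Pool.Agent.Helper11.SP.Bd

/-!
# The pull back of a curve by the iterates of a split map, and its resultant with the curve
-/

set_option autoImplicit false

namespace Pool.Agent.Helper11.SP

open Polynomial

/-- `1 + d + ... + d ^ (j - 1)` -/
def ee (d j : ℕ) : ℕ := ∑ i ∈ Finset.range j, d ^ i

theorem ee_succ (d j : ℕ) : ee d (j + 1) = 1 + d * ee d j := by
  unfold ee
  rw [Finset.sum_range_succ', Finset.mul_sum, pow_zero, add_comm]
  congr 1
  exact Finset.sum_congr rfl fun i _ => by rw [pow_succ, mul_comm]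

/-- The iterates of a polynomial. -/
noncomputable def itc {A : Type*} [CommRing A] (f : A[X]) (j : ℕ) : A[X] := f.comp^[j] X

/-- The value of a polynomial in two variables; the outer variable is the second one. -/
noncomputable def ev {A : Type*} [CommRing A] (x y : A) (P : A[X][X]) : A :=
  (P.map (evalRingHom x)).eval y

/-- `P (f^j x, g^j y)` -/
noncomputable def tw {A : Type*} [CommRing A] (f g : A[X]) (P : A[X][X]) (j : ℕ) : A[X][X] :=
  (P.map (compRingHom (itc f j))).comp ((itc g j).map C)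

section

variable {A : Type*} [CommRing A]

theorem itc_succ (f : A[X]) (j : ℕ) : itc f (j + 1) = f.comp (itc f j) :=
  Function.iterate_succ_apply' _ _ _

theorem itc_eval (f : A[X]) (j : ℕ) (x : A) :
    (itc f j).eval x = (fun z => f.eval z)^[j] x := by
  unfold itc
  rw [Polynomial.iterate_comp_eval, eval_X]

theorem itc_natDegree [IsDomain A] (f : A[X]) (j : ℕ) : (itc f j).natDegree = f.natDegree ^ j := by
  unfold itc
  rw [Polynomial.natDegree_iterate_comp, natDegree_X, mul_one]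

theorem ev_mul (x y : A) (P Q : A[X][X]) : ev x y (P * Q) = ev x y P * ev x y Q := by
  unfold ev
  rw [Polynomial.map_mul, eval_mul]

theorem ev_add (x y : A) (P Q : A[X][X]) : ev x y (P + Q) = ev x y P + ev x y Q := by
  unfold ev
  rw [Polynomial.map_add, eval_add]

theorem ev_C (x y : A) (q : A[X]) : ev x y (C q) = q.eval x := by
  unfold ev
  rw [map_C, eval_C]
  rfl

theorem ev_tw (f g : A[X]) (P : A[X][X]) (j : ℕ) (x y : A) :
    ev x y (tw f g P j) = ev ((fun z => f.eval z)^[j] x) ((fun z => g.eval z)^[j] y) P := by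
  unfold ev tw
  rw [Polynomial.map_comp, Polynomial.map_map, Polynomial.map_map, eval_comp]
  have h1 : (evalRingHom x).comp (compRingHom (itc f j)) =
      evalRingHom ((fun z => f.eval z)^[j] x) := by
    refine RingHom.ext fun q => ?_
    show (q.comp (itc f j)).eval x = q.eval _
    rw [eval_comp, itc_eval]
  have h2 : (evalRingHom x).comp (C : A →+* A[X]) = RingHom.id A := by
    refine RingHom.ext fun q => ?_
    show (C q).eval x = q
    exact eval_C
  rw [h1, h2, Polynomial.map_id, itc_eval]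

theorem natDegree_tw_le [IsDomain A] (f g : A[X]) (P : A[X][X]) (j : ℕ) :
    (tw f g P j).natDegree ≤ P.natDegree * g.natDegree ^ j := by
  unfold tw
  rw [natDegree_comp, Polynomial.natDegree_map_eq_of_injective C_injective, itc_natDegree]
  exact Nat.mul_le_mul_right _ natDegree_map_le

variable [Nontrivial A] (v : AbsoluteValue A ℝ) (hna : IsNonarchimedean v)

theorem gv_comp_le (q F : A[X]) (M : ℝ) (hM0 : 0 ≤ M) (hM : ∀ k, v (q.coeff k) ≤ M) (n : ℕ)
    (hn : q.natDegree ≤ n) : gv v hna (q.comp F) ≤ M * max 1 (gv v hna F) ^ n :=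
  abv_eval₂_le (gv v hna) (gv_na v hna) C F q M hM0 (fun k => by rw [gv_C]; exact hM k) n hn

theorem gv_itc_le (f : A[X]) (B : ℝ) (hB : 1 ≤ B) (hf : ∀ k, v (f.coeff k) ≤ B) (d : ℕ)
    (hd : f.natDegree ≤ d) (j : ℕ) : max 1 (gv v hna (itc f j)) ≤ B ^ ee d j := by
  induction j with
  | zero =>
    have h1 : gv v hna (itc f 0) ≤ 1 := by
      refine gv_le v hna _ 1 fun k => ?_
      show v ((X : A[X]).coeff k) ≤ 1
      rw [coeff_X]
      split_ifs
      · exact v.map_one.le
      · rw [map_zero]; exact zero_le_one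
    simpa [ee] using h1
  | succ j ih =>
    have h1 : gv v hna (itc f (j + 1)) ≤ B * max 1 (gv v hna (itc f j)) ^ d := by
      rw [itc_succ]
      exact gv_comp_le v hna f _ B (by linarith) hf d hd
    have h2 : (1 : ℝ) ≤ max 1 (gv v hna (itc f j)) := le_max_left _ _
    have h3 : (1 : ℝ) ≤ B * max 1 (gv v hna (itc f j)) ^ d :=
      one_le_mul_of_one_le_of_one_le hB (one_le_pow₀ h2)
    calc max 1 (gv v hna (itc f (j + 1))) ≤ B * max 1 (gv v hna (itc f j)) ^ d := max_le h3 h1
      _ ≤ B * (B ^ ee d j) ^ d := by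
          refine mul_le_mul_of_nonneg_left ?_ (by linarith)
          exact pow_le_pow_left₀ (by linarith) ih d
      _ = B ^ ee d (j + 1) := by
          rw [ee_succ, pow_add, pow_one, ← pow_mul, mul_comm d]

theorem coeff_tw_le (f g : A[X]) (P : A[X][X]) (B : ℝ) (hB : 1 ≤ B)
    (hf : ∀ k, v (f.coeff k) ≤ B) (hg : ∀ k, v (g.coeff k) ≤ B)
    (hP : ∀ k l, v ((P.coeff k).coeff l) ≤ B) (d : ℕ) (hfd : f.natDegree ≤ d)
    (hgd : g.natDegree ≤ d) (E : ℕ) (hE : ∀ k, (P.coeff k).natDegree ≤ E) (m : ℕ)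
    (hm : P.natDegree ≤ m) (j k : ℕ) :
    gv v hna ((tw f g P j).coeff k) ≤ B ^ (1 + ee d j * (E + m)) := by
  have hF := gv_itc_le v hna f B hB hf d hfd j
  have hG := gv_itc_le v hna g B hB hg d hgd j
  have hB0 : (0 : ℝ) ≤ B := by linarith
  have h1 : ∀ b, gv (gv v hna) (gv_na v hna)
      (C ((P.map (compRingHom (itc f j))).coeff b)) ≤ B * (B ^ ee d j) ^ E := by
    intro b
    rw [gv_C, coeff_map]
    show gv v hna ((P.coeff b).comp (itc f j)) ≤ _
    refine (gv_comp_le v hna (P.coeff b) _ B hB0 (hP b) E (hE b)).trans ?_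
    refine mul_le_mul_of_nonneg_left ?_ hB0
    exact pow_le_pow_left₀ (le_trans zero_le_one (le_max_left _ _)) hF E
  have h2 : gv (gv v hna) (gv_na v hna) ((itc g j).map C) ≤ B ^ ee d j := by
    refine gv_le _ _ _ _ fun k => ?_
    rw [coeff_map, gv_C]
    exact (coeff_le_gv v hna _ k).trans ((le_max_right _ _).trans hG)
  have h3 : (1 : ℝ) ≤ B ^ ee d j := one_le_pow₀ hB
  have h4 : gv (gv v hna) (gv_na v hna) (tw f g P j) ≤
      (B * (B ^ ee d j) ^ E) * max 1 (gv (gv v hna) (gv_na v hna) ((itc g j).map C)) ^ m :=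
    abv_eval₂_le (gv (gv v hna) (gv_na v hna)) (gv_na _ _) C ((itc g j).map C)
      (P.map (compRingHom (itc f j))) _ (by positivity) h1 m (natDegree_map_le.trans hm)
  refine (coeff_le_gv (gv v hna) (gv_na v hna) _ k).trans (h4.trans ?_)
  calc (B * (B ^ ee d j) ^ E) * max 1 (gv (gv v hna) (gv_na v hna) ((itc g j).map C)) ^ m
      ≤ (B * (B ^ ee d j) ^ E) * (B ^ ee d j) ^ m := by
        refine mul_le_mul_of_nonneg_left ?_ (by positivity)
        exact pow_le_pow_left₀ (le_trans zero_le_one (le_max_left _ _)) (max_le h3 h2) m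
    _ = B ^ (1 + ee d j * (E + m)) := by
        rw [pow_add, pow_one, ← pow_mul, ← pow_mul, mul_add, pow_add, mul_assoc]

end

/-- The resultant of a curve and its pull back by the `j`-th iterate bounds the abscissa of the
common points. -/
theorem common_le {A L I : Type*} [CommRing A] [IsDomain A] [NormedField L] [IsUltrametricDist L]
    [Finite I] (σ : I → A →+* L) (N : ℕ) (hinj : ∀ i, Function.Injective (σ i))
    (hliou : ∀ u : A, u ≠ 0 → ∀ i, ∀ M : ℝ, 1 ≤ M → (∀ j, ‖σ j u‖ ≤ M) →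
      1 ≤ ‖σ i u‖ * M ^ N)
    (f g : A[X]) (d : ℕ) (hf : f.natDegree ≤ d) (hg : g.natDegree ≤ d)
    (P : A[X][X]) (hP : 0 < P.natDegree) :
    ∃ H : ℝ, 1 ≤ H ∧ ∀ j, resultant P (tw f g P j) ≠ 0 → ∀ x y : A, ev x y P = 0 →
      ev x y (tw f g P j) = 0 → ∀ i, ‖σ i x‖ ≤ H ^ (d ^ j + ee d j + 1) := by
  classical
  have := Fintype.ofFinite I
  -- the absolute values
  let v : I → AbsoluteValue A ℝ := fun i =>
    { toFun := fun u => ‖σ i u‖
      map_mul' := fun a b => by rw [map_mul, norm_mul]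
      nonneg' := fun a => norm_nonneg _
      eq_zero' := fun a => by
        rw [norm_eq_zero]
        exact ⟨fun h => hinj i (by rw [h, map_zero]), fun h => by rw [h, map_zero]⟩
      add_le' := fun a b => by rw [map_add]; exact norm_add_le _ _ }
  have hna : ∀ i, IsNonarchimedean (v i) := fun i a b => by
    show ‖σ i (a + b)‖ ≤ max ‖σ i a‖ ‖σ i b‖
    rw [map_add]
    exact IsUltrametricDist.norm_add_le_max _ _
  -- the constants
  obtain ⟨B, hB, hB1, hB2, hB3⟩ : ∃ B : ℝ, 1 ≤ B ∧ (∀ i k, v i (f.coeff k) ≤ B) ∧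
      (∀ i k, v i (g.coeff k) ≤ B) ∧ (∀ i k l, v i ((P.coeff k).coeff l) ≤ B) := by
    have hpos : ∀ i, 0 ≤ gv (v i) (hna i) f + gv (v i) (hna i) g +
        gv (gv (v i) (hna i)) (gv_na _ _) P := fun i =>
      add_nonneg (add_nonneg ((gv (v i) (hna i)).nonneg _) ((gv (v i) (hna i)).nonneg _))
        ((gv (gv (v i) (hna i)) (gv_na _ _)).nonneg _)
    have hs : ∀ i, gv (v i) (hna i) f + gv (v i) (hna i) g +
        gv (gv (v i) (hna i)) (gv_na _ _) P ≤ ∑ i, (gv (v i) (hna i) f + gv (v i) (hna i) g +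
        gv (gv (v i) (hna i)) (gv_na _ _) P) := fun i =>
      Finset.single_le_sum (f := fun i => gv (v i) (hna i) f + gv (v i) (hna i) g +
        gv (gv (v i) (hna i)) (gv_na _ _) P) (fun j _ => hpos j) (Finset.mem_univ i)
    have hs0 : 0 ≤ ∑ i, (gv (v i) (hna i) f + gv (v i) (hna i) g +
        gv (gv (v i) (hna i)) (gv_na _ _) P) := Finset.sum_nonneg fun i _ => hpos i
    refine ⟨1 + ∑ i, (gv (v i) (hna i) f + gv (v i) (hna i) g +
        gv (gv (v i) (hna i)) (gv_na _ _) P), by linarith, fun i k => ?_, fun i k => ?_,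
        fun i k l => ?_⟩
    · have h1 := coeff_le_gv (v i) (hna i) f k
      have h2 := (gv (v i) (hna i)).nonneg g
      have h3 := (gv (gv (v i) (hna i)) (gv_na _ _)).nonneg P
      have h4 := hs i
      linarith
    · have h1 := coeff_le_gv (v i) (hna i) g k
      have h2 := (gv (v i) (hna i)).nonneg f
      have h3 := (gv (gv (v i) (hna i)) (gv_na _ _)).nonneg P
      have h4 := hs i
      linarith
    · have h1 := coeff_le_gv (v i) (hna i) (P.coeff k) l
      have h2 := coeff_le_gv (gv (v i) (hna i)) (gv_na _ _) P k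
      have h3 := (gv (v i) (hna i)).nonneg f
      have h5 := (gv (v i) (hna i)).nonneg g
      have h4 := hs i
      linarith
  obtain ⟨E, hE⟩ : ∃ E : ℕ, ∀ k, (P.coeff k).natDegree ≤ E := by
    refine ⟨P.support.sup fun k => (P.coeff k).natDegree, fun k => ?_⟩
    by_cases hk : P.coeff k = 0
    · rw [hk, natDegree_zero]
      exact Nat.zero_le _
    · exact Finset.le_sup (f := fun k => (P.coeff k).natDegree) (mem_support_iff.2 hk)
  obtain ⟨m, hm⟩ : ∃ m, m = P.natDegree := ⟨_, rfl⟩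
  have hB0 : (0 : ℝ) ≤ B := by linarith
  refine ⟨B ^ ((m * (1 + E + m)) * (N + 1)), one_le_pow₀ hB, fun j hj x y hx hy i => ?_⟩
  -- the resultant vanishes at `x`
  have hρ : (resultant P (tw f g P j)).eval x = 0 := by
    obtain ⟨p, q, -, -, he⟩ := exists_mul_add_mul_eq_C_resultant P (tw f g P j) le_rfl le_rfl
      (Or.inl hP.ne')
    have h1 := congrArg (ev x y) he
    rw [ev_add, ev_mul, ev_mul, hx, hy, zero_mul, zero_mul, add_zero, ev_C] at h1
    exact h1.symm
  obtain ⟨M, hM⟩ : ∃ M : ℝ, M = B ^ (m * d ^ j + (1 + ee d j * (E + m)) * m) := ⟨_, rfl⟩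
  have hM1 : 1 ≤ M := by rw [hM]; exact one_le_pow₀ hB
  have hbd : ∀ i k, ‖σ i ((resultant P (tw f g P j)).coeff k)‖ ≤ M := by
    intro i k
    refine (coeff_le_gv (v i) (hna i) _ k).trans ?_
    have h1 := abv_resultant_le (gv (v i) (hna i)) (gv_na _ _) P (tw f g P j) P.natDegree
      (tw f g P j).natDegree B (B ^ (1 + ee d j * (E + m))) hB0 (by positivity)
      (fun k => gv_le _ _ _ _ fun l => hB3 i k l)
      (fun k => coeff_tw_le (v i) (hna i) f g P B hB (hB1 i) (hB2 i) (hB3 i) d hf hg E hE m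
        hm.symm.le j k)
    refine h1.trans ?_
    rw [hM, ← hm, ← pow_mul, pow_add B (m * d ^ j)]
    refine mul_le_mul_of_nonneg_right ?_ (by positivity)
    refine pow_le_pow_right₀ hB ((natDegree_tw_le f g P j).trans ?_)
    rw [← hm]
    exact Nat.mul_le_mul_left _ (Nat.pow_le_pow_left hg j)
  have h2 := root_le σ N hliou _ hj x hρ M hM1 hbd i
  refine h2.trans ?_
  rw [hM, ← pow_mul, ← pow_mul]
  refine pow_le_pow_right₀ hB ?_
  have h3 : m * d ^ j + (1 + ee d j * (E + m)) * m ≤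
      (m * (1 + E + m)) * (d ^ j + ee d j + 1) := by
    have : 0 ≤ m * (E + m) * d ^ j := Nat.zero_le _
    nlinarith [Nat.zero_le (m * d ^ j * (E + m)), Nat.zero_le (m * ee d j), Nat.zero_le (m * (E + m))]
  calc (m * d ^ j + (1 + ee d j * (E + m)) * m) * (N + 1)
      ≤ ((m * (1 + E + m)) * (d ^ j + ee d j + 1)) * (N + 1) := Nat.mul_le_mul_right _ h3
    _ = m * (1 + E + m) * (N + 1) * (d ^ j + ee d j + 1) := by ring

end Pool.Agent.Helper11.SP
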